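import Pool.Agent.R219.CU.Dim

/-!
# Montgomery's conjecture for cubic Weyl sums at almost every leading coefficient

The case `k = 3`, with the exponent `1/3` of the conjecture, all linear coefficients `ξ` and all `N`; sums with
bounded coefficients over all short intervals; the dimension of the exceptional sets.
-/

set_option autoImplicit false

open Finset MeasureTheory

namespace Pool.Agent.Results.MP_3b0be2_nt.CubicSums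

open Pool.Agent.R219.CU
open Pool.Agent.W928.MW (e)

/-- from short intervals to the inequality of `H_3(η)` -/
theorem h3_of {t θ η ε : ℝ} (hη : 0 ≤ η) (h : 2 / 3 + θ ≤ 1 + ε - η) (ht : Ok (fun _ => 1) θ t) :
    ∃ C : ℝ, ∀ N : ℕ, 2 ≤ N → ∀ (ξ : ℝ) (a q : ℕ),
      1 ≤ a → a < q → q ≤ N → Nat.Coprime a q → |t - (a : ℝ) / (q : ℝ)| ≤ 1 / (q : ℝ) ^ 2 →
      ‖∑ n ∈ Icc 1 N,
          Complex.exp (2 * (Real.pi : ℂ) * Complex.I * ((t * (n : ℝ) ^ 3 + ξ * (n : ℝ) : ℝ) : ℂ))‖ ≤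
        C * (N : ℝ) ^ (1 + ε) * (1 / (q : ℝ) + 1 / (N : ℝ) + (q : ℝ) / (N : ℝ) ^ 3) ^ η := by
  obtain ⟨C, hC⟩ := ht
  refine ⟨max C 0, fun N hN ξ a q _ haq _ _ _ => ?_⟩
  have hN1 : (1 : ℝ) ≤ N := by
    have : 1 ≤ N := by omega
    exact_mod_cast this
  have hN0 : (0 : ℝ) < N := by linarith
  have hq0 : (0 : ℝ) ≤ 1 / (q : ℝ) := by positivity
  have h1 := hC 0 N (by omega) ξ
  have h2 : sg (fun _ => 1) 0 N t ξ = ∑ n ∈ Icc 1 N,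
      Complex.exp (2 * (Real.pi : ℂ) * Complex.I * ((t * (n : ℝ) ^ 3 + ξ * (n : ℝ) : ℝ) : ℂ)) := by
    unfold sg
    rw [zero_add]
    have h3 : Ioc 0 N = Icc 1 N := by
      ext n
      rw [mem_Ioc, mem_Icc]
      omega
    rw [h3]
    refine Finset.sum_congr rfl fun n _ => ?_
    rw [one_mul]
    rfl
  rw [h2] at h1
  refine h1.trans ?_
  have h4 : (N : ℝ) ^ (1 / 2 : ℝ) * (((0 : ℕ) : ℝ) + (N : ℝ)) ^ (1 / 6 + θ) = (N : ℝ) ^ (2 / 3 + θ) := by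
    rw [Nat.cast_zero, zero_add, ← Real.rpow_add hN0]
    congr 1
    ring
  have h5 : (N : ℝ) ^ (2 / 3 + θ) ≤ (N : ℝ) ^ (1 + ε) * (1 / (N : ℝ)) ^ η := by
    rw [one_div, Real.inv_rpow hN0.le, ← Real.rpow_neg hN0.le, ← Real.rpow_add hN0]
    exact Real.rpow_le_rpow_of_exponent_le hN1 (by linarith)
  have h6 : (1 / (N : ℝ)) ^ η ≤ (1 / (q : ℝ) + 1 / (N : ℝ) + (q : ℝ) / (N : ℝ) ^ 3) ^ η := by
    refine Real.rpow_le_rpow (by positivity) ?_ hη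
    have : (0 : ℝ) ≤ (q : ℝ) / (N : ℝ) ^ 3 := by positivity
    linarith
  rw [mul_assoc, h4, mul_assoc]
  calc C * (N : ℝ) ^ (2 / 3 + θ) ≤ max C 0 * (N : ℝ) ^ (2 / 3 + θ) :=
        mul_le_mul_of_nonneg_right (le_max_left _ _) (by positivity)
    _ ≤ _ := mul_le_mul_of_nonneg_left
        (h5.trans (mul_le_mul_of_nonneg_left h6 (by positivity))) (le_max_right _ _)

/-- **Cubic Weyl sums at almost every leading coefficient.**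

(1) Let `c_n` be any complex numbers with `|c_n| ≤ 1`. For almost every real `t`, for every `ε > 0` there is `C`
such that `|∑_{M < n ≤ M + N} c_n e(t n³ + ξ n)| ≤ C N^(1/2) (M + N)^(1/6 + ε)` for all `M ≥ 0`, `N ≥ 1` and all real
`ξ`. For each single `ε`, `0 < ε < 1/2`, the set of the `t` for which there is no such `C` has Hausdorff dimension at
most `1 - 2ε`.

(2) `H_3(1/3)` holds at almost every real `t`: for every `ε > 0` there is `C` such that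
`|∑_{n ≤ N} e(t n³ + ξ n)| ≤ C N^(1+ε) (1/q + 1/N + q/N³)^(1/3)` for all `N ≥ 2`, all real `ξ` and all coprime
`1 ≤ a < q ≤ N` with `|t - a/q| ≤ 1/q²`.

(3) For each single `ε`, `0 < ε < 1/2`, the set of the real `t` for which this holds with no `C` has Hausdorff dimension
at most `1 - 2ε`. For `0 ≤ η < 1/3` the set of the `t` for which the corresponding inequality of `H_3(η)` fails for at
least one `ε > 0` has Hausdorff dimension at most `(1 + 6η)/3`, which is less than `1`. -/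
theorem result :
    (∀ c : ℕ → ℂ, (∀ n, ‖c n‖ ≤ 1) →
      (∀ᵐ t : ℝ, ∀ ε : ℝ, 0 < ε → ∃ C : ℝ, ∀ M N : ℕ, 1 ≤ N → ∀ ξ : ℝ,
        ‖∑ n ∈ Ioc M (M + N), c n *
          Complex.exp (2 * (Real.pi : ℂ) * Complex.I * ((t * (n : ℝ) ^ 3 + ξ * (n : ℝ) : ℝ) : ℂ))‖ ≤
          C * (N : ℝ) ^ (1 / 2 : ℝ) * ((M : ℝ) + N) ^ (1 / 6 + ε)) ∧
      ∀ ε : ℝ, 0 < ε → ε < 1 / 2 →
        dimH {t : ℝ | ¬ ∃ C : ℝ, ∀ M N : ℕ, 1 ≤ N → ∀ ξ : ℝ,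
          ‖∑ n ∈ Ioc M (M + N), c n *
            Complex.exp (2 * (Real.pi : ℂ) * Complex.I * ((t * (n : ℝ) ^ 3 + ξ * (n : ℝ) : ℝ) : ℂ))‖ ≤
            C * (N : ℝ) ^ (1 / 2 : ℝ) * ((M : ℝ) + N) ^ (1 / 6 + ε)} ≤ ENNReal.ofReal (1 - 2 * ε)) ∧
    (∀ᵐ t : ℝ, ∀ ε : ℝ, 0 < ε → ∃ C : ℝ, ∀ N : ℕ, 2 ≤ N → ∀ (ξ : ℝ) (a q : ℕ),
      1 ≤ a → a < q → q ≤ N → Nat.Coprime a q → |t - (a : ℝ) / (q : ℝ)| ≤ 1 / (q : ℝ) ^ 2 →
      ‖∑ n ∈ Icc 1 N,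
          Complex.exp (2 * (Real.pi : ℂ) * Complex.I * ((t * (n : ℝ) ^ 3 + ξ * (n : ℝ) : ℝ) : ℂ))‖ ≤
        C * (N : ℝ) ^ (1 + ε) * (1 / (q : ℝ) + 1 / (N : ℝ) + (q : ℝ) / (N : ℝ) ^ 3) ^ (1 / 3 : ℝ)) ∧
    (∀ ε : ℝ, 0 < ε → ε < 1 / 2 →
      dimH {t : ℝ | ¬ ∃ C : ℝ, ∀ N : ℕ, 2 ≤ N → ∀ (ξ : ℝ) (a q : ℕ),
        1 ≤ a → a < q → q ≤ N → Nat.Coprime a q → |t - (a : ℝ) / (q : ℝ)| ≤ 1 / (q : ℝ) ^ 2 →
        ‖∑ n ∈ Icc 1 N,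
            Complex.exp (2 * (Real.pi : ℂ) * Complex.I * ((t * (n : ℝ) ^ 3 + ξ * (n : ℝ) : ℝ) : ℂ))‖ ≤
          C * (N : ℝ) ^ (1 + ε) * (1 / (q : ℝ) + 1 / (N : ℝ) + (q : ℝ) / (N : ℝ) ^ 3) ^ (1 / 3 : ℝ)} ≤
        ENNReal.ofReal (1 - 2 * ε)) ∧
    (∀ η : ℝ, 0 ≤ η → η < 1 / 3 →
      dimH {t : ℝ | ¬ ∀ ε : ℝ, 0 < ε → ∃ C : ℝ, ∀ N : ℕ, 2 ≤ N → ∀ (ξ : ℝ) (a q : ℕ),
        1 ≤ a → a < q → q ≤ N → Nat.Coprime a q → |t - (a : ℝ) / (q : ℝ)| ≤ 1 / (q : ℝ) ^ 2 →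
        ‖∑ n ∈ Icc 1 N,
            Complex.exp (2 * (Real.pi : ℂ) * Complex.I * ((t * (n : ℝ) ^ 3 + ξ * (n : ℝ) : ℝ) : ℂ))‖ ≤
          C * (N : ℝ) ^ (1 + ε) * (1 / (q : ℝ) + 1 / (N : ℝ) + (q : ℝ) / (N : ℝ) ^ 3) ^ η} ≤
        ENNReal.ofReal ((1 + 6 * η) / 3)) := by
  have hone : ∀ n : ℕ, ‖(fun _ : ℕ => (1 : ℂ)) n‖ ≤ 1 := fun _ => by rw [norm_one]
  refine ⟨fun c hc => ⟨?_, fun ε hε hε2 => ?_⟩, ?_, fun ε hε hε2 => ?_, fun η hη hη3 => ?_⟩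
  · filter_upwards [ae_all hc] with t ht ε hε
    obtain ⟨C, _, hC⟩ := ht ε hε
    exact ⟨C, hC⟩
  · exact dim_all hc hε hε2
  · filter_upwards [ae_all hone] with t ht ε hε
    obtain ⟨C, _, hC⟩ := ht ε hε
    exact h3_of (θ := ε) (by norm_num) (by linarith) ⟨C, hC⟩
  · refine (dimH_mono ?_).trans (dim_all hone hε hε2)
    intro t ht hok
    exact ht (h3_of (θ := ε) (by norm_num) (by linarith) hok)
  · have h1 := dim_all hone (θ := 1 / 3 - η) (by linarith) (by linarith)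
    rw [show 1 - 2 * (1 / 3 - η) = (1 + 6 * η) / 3 by ring] at h1
    refine (dimH_mono ?_).trans h1
    intro t ht hok
    exact ht fun ε hε => h3_of (θ := 1 / 3 - η) hη (by linarith) hok

end Pool.Agent.Results.MP_3b0be2_nt.CubicSums
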