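import Pool.Agent.R461.MD.Main

/-!
# The Hausdorff dimension of the leading coefficients for which Montgomery's bound fails
-/

set_option autoImplicit false

open Finset MeasureTheory

namespace Pool.Agent.Results.MP_3b0be2_nt.DimensionOfExceptions

open Pool.Agent.R461.MD

/-- **The exceptional leading coefficients.**  Let `k ≥ 3` and `0 < η ≤ 1/4`.

(1) Let `c_n` be any complex numbers with `|c_n| ≤ 1`.  For `0 < ε < η` the set of the real `t` for which there is no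
`C` with `|∑_{n ≤ N} c_n e(t n^k + ξ n)| ≤ C N^(1 - η + ε)` for all `N ≥ 1` and all real `ξ` has Hausdorff dimension
at most `1 - (3 - 8η + 5ε)/k`; the set of the `t` for which this fails for at least one `ε > 0` has Hausdorff
dimension at most `1 - (3 - 8η)/k`.

(2) The same two bounds hold for the inequality of `H_k(η)`: the set of the real `t` for which there is no `C` with
`|∑_{n ≤ N} e(t n^k + ξ n)| ≤ C N^(1+ε) (1/q + 1/N + q/N^k)^η` for all `N ≥ 2`, all real `ξ` and all coprime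
`1 ≤ a < q ≤ N` with `|t - a/q| ≤ 1/q²` has Hausdorff dimension at most `1 - (3 - 8η + 5ε)/k` if `0 < ε < η`, and the
set of the `t` for which this happens for at least one `ε > 0` has Hausdorff dimension at most `1 - (3 - 8η)/k`.

For `k ≥ 4` and `η = 1/k` (Montgomery's conjecture) the last bound is `1 - 3/k + 8/k²`. -/
theorem result (k : ℕ) (hk : 3 ≤ k) (η : ℝ) (hη : 0 < η) (hη1 : η ≤ 1 / 4) :
    (∀ c : ℕ → ℂ, (∀ n, ‖c n‖ ≤ 1) →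
      (∀ ε : ℝ, 0 < ε → ε < η →
        dimH {t : ℝ | ¬ ∃ C : ℝ, ∀ N : ℕ, 1 ≤ N → ∀ ξ : ℝ, ‖∑ n ∈ Icc 1 N, c n *
          Complex.exp (2 * (Real.pi : ℂ) * Complex.I * ((t * (n : ℝ) ^ k + ξ * (n : ℝ) : ℝ) : ℂ))‖ ≤
          C * (N : ℝ) ^ (1 - η + ε)} ≤ ENNReal.ofReal (1 - (3 - 8 * η + 5 * ε) / k)) ∧
      dimH {t : ℝ | ¬ ∀ ε : ℝ, 0 < ε → ∃ C : ℝ, ∀ N : ℕ, 1 ≤ N → ∀ ξ : ℝ, ‖∑ n ∈ Icc 1 N, c n *
          Complex.exp (2 * (Real.pi : ℂ) * Complex.I * ((t * (n : ℝ) ^ k + ξ * (n : ℝ) : ℝ) : ℂ))‖ ≤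
          C * (N : ℝ) ^ (1 - η + ε)} ≤ ENNReal.ofReal (1 - (3 - 8 * η) / k)) ∧
    (∀ ε : ℝ, 0 < ε → ε < η →
      dimH {t : ℝ | ¬ ∃ C : ℝ, ∀ N : ℕ, 2 ≤ N → ∀ (ξ : ℝ) (a q : ℕ),
        1 ≤ a → a < q → q ≤ N → Nat.Coprime a q → |t - (a : ℝ) / (q : ℝ)| ≤ 1 / (q : ℝ) ^ 2 →
        ‖∑ n ∈ Icc 1 N,
          Complex.exp (2 * (Real.pi : ℂ) * Complex.I * ((t * (n : ℝ) ^ k + ξ * (n : ℝ) : ℝ) : ℂ))‖ ≤
        C * (N : ℝ) ^ (1 + ε) * (1 / (q : ℝ) + 1 / (N : ℝ) + (q : ℝ) / (N : ℝ) ^ k) ^ η} ≤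
        ENNReal.ofReal (1 - (3 - 8 * η + 5 * ε) / k)) ∧
    dimH {t : ℝ | ¬ ∀ ε : ℝ, 0 < ε → ∃ C : ℝ, ∀ N : ℕ, 2 ≤ N → ∀ (ξ : ℝ) (a q : ℕ),
        1 ≤ a → a < q → q ≤ N → Nat.Coprime a q → |t - (a : ℝ) / (q : ℝ)| ≤ 1 / (q : ℝ) ^ 2 →
        ‖∑ n ∈ Icc 1 N,
          Complex.exp (2 * (Real.pi : ℂ) * Complex.I * ((t * (n : ℝ) ^ k + ξ * (n : ℝ) : ℝ) : ℂ))‖ ≤
        C * (N : ℝ) ^ (1 + ε) * (1 / (q : ℝ) + 1 / (N : ℝ) + (q : ℝ) / (N : ℝ) ^ k) ^ η} ≤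
        ENNReal.ofReal (1 - (3 - 8 * η) / k) := by
  have hone : ∀ n : ℕ, ‖(fun _ : ℕ => (1 : ℂ)) n‖ ≤ 1 := fun _ => by rw [norm_one]
  have key : ∀ (t ε : ℝ), Ok k (fun _ => 1) (1 - η + ε) t → ∃ C : ℝ, ∀ N : ℕ, 2 ≤ N →
      ∀ (ξ : ℝ) (a q : ℕ),
        1 ≤ a → a < q → q ≤ N → Nat.Coprime a q → |t - (a : ℝ) / (q : ℝ)| ≤ 1 / (q : ℝ) ^ 2 →
        ‖∑ n ∈ Icc 1 N,
          Complex.exp (2 * (Real.pi : ℂ) * Complex.I * ((t * (n : ℝ) ^ k + ξ * (n : ℝ) : ℝ) : ℂ))‖ ≤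
        C * (N : ℝ) ^ (1 + ε) * (1 / (q : ℝ) + 1 / (N : ℝ) + (q : ℝ) / (N : ℝ) ^ k) ^ η := by
    rintro t ε ⟨C, hC⟩
    refine ⟨max C 0, fun N hN ξ a q _ haq _ _ _ => ?_⟩
    have hN1 : (1 : ℝ) ≤ N := by
      have : 1 ≤ N := by omega
      exact_mod_cast this
    have hN0 : (0 : ℝ) < N := by linarith
    have hq0 : (0 : ℝ) ≤ 1 / (q : ℝ) := by positivity
    have h2 : ‖∑ n ∈ Icc 1 N,
        Complex.exp (2 * (Real.pi : ℂ) * Complex.I * ((t * (n : ℝ) ^ k + ξ * (n : ℝ) : ℝ) : ℂ))‖ ≤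
        C * (N : ℝ) ^ (1 - η + ε) := by
      have h3 := hC N (by omega) ξ
      unfold Pool.Agent.R461.MF.sc at h3
      simp only [one_mul] at h3
      exact h3
    refine h2.trans ?_
    have h4 : (N : ℝ) ^ (1 - η + ε) = (N : ℝ) ^ (1 + ε) * (1 / (N : ℝ)) ^ η := by
      rw [one_div, Real.inv_rpow hN0.le, ← Real.rpow_neg hN0.le, ← Real.rpow_add hN0]
      congr 1
      ring
    have h5 : (1 / (N : ℝ)) ^ η ≤ (1 / (q : ℝ) + 1 / (N : ℝ) + (q : ℝ) / (N : ℝ) ^ k) ^ η := by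
      refine Real.rpow_le_rpow (by positivity) ?_ hη.le
      have : (0 : ℝ) ≤ (q : ℝ) / (N : ℝ) ^ k := by positivity
      linarith
    rw [h4, mul_assoc]
    refine mul_le_mul (le_max_left _ _) ?_ (by positivity) (le_max_right _ _)
    exact mul_le_mul_of_nonneg_left h5 (by positivity)
  refine ⟨fun c hc => ⟨fun ε hε hεη => dim_one hk hc hη1 hε hεη, dim_all hk hc hη hη1⟩,
    fun ε hε hεη => ?_, ?_⟩
  · refine (dimH_mono ?_).trans (dim_one (c := fun _ => 1) hk hone hη1 hε hεη)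
    intro t ht hok
    exact ht (key t ε hok)
  · refine (dimH_mono ?_).trans (dim_all (c := fun _ => 1) hk hone hη hη1)
    intro t ht hok
    exact ht fun ε hε => key t ε (hok ε hε)

end Pool.Agent.Results.MP_3b0be2_nt.DimensionOfExceptions
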