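import Pool.Agent.R461.MF.Main

/-!
# Montgomery's bound for Weyl sums at almost every point of a fractal measure
-/

set_option autoImplicit false

open Finset MeasureTheory

namespace Pool.Agent.Results.MP_3b0be2_nt.FractalLeadingCoefficients

open Pool.Agent.R461.MF

/-- **Montgomery's bound at almost every point of a measure with Fourier decay.**  Let `k ≥ 2`, `0 < η ≤ 1/4`
and let `μ` be any probability measure on `ℝ`, possibly singular, with `|μ^(m)| ≤ K m^(-4η/k)` for the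
Fourier coefficients `μ^(m) = ∫ e(m t) dμ(t)`, `m ≥ 1` an integer.

(1) Let `c_n` be any complex numbers with `|c_n| ≤ 1`.  For all `N ≥ 1` and `V > 0` the `μ`-measure of the set of
the `t` for which `|∑_{n ≤ M} c_n e(t n^k + ξ n)| > V` for at least one real `ξ` and `M ≤ N` is at most
`(6 + 24 k K) (2 + log N)⁴ N^(4 - 4η) / V⁴`.  For `μ`-almost every `t`, for every `ε > 0` there is `C` such that
`|∑_{n ≤ N} c_n e(t n^k + ξ n)| ≤ C N^(1 - η + ε)` for all `N ≥ 1` and all real `ξ`.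

(2) For `μ`-almost every `t` the inequality of `H_k(η)` holds at `t`: for every `ε > 0` there is `C` such that
`|∑_{n ≤ N} e(t n^k + ξ n)| ≤ C N^(1+ε) (1/q + 1/N + q/N^k)^η` for all `N ≥ 2`, all real `ξ` and all coprime
`1 ≤ a < q ≤ N` with `|t - a/q| ≤ 1/q²`.

For `k ≥ 4` and `η = 1/k` this is the inequality of Montgomery's conjecture, for all measures with the Fourier decay
`m^(-4/k²)`: the set of the exceptional `t` has measure `0` for all of them, so its Fourier dimension is at most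
`8/k²`. -/
theorem result (k : ℕ) (hk : 2 ≤ k) (η : ℝ) (hη : 0 < η) (hη1 : η ≤ 1 / 4) (K : ℝ) (μ : Measure ℝ)
    (hμ : IsProbabilityMeasure μ)
    (hdec : ∀ m : ℕ, 1 ≤ m →
      ‖∫ t, Complex.exp (2 * (Real.pi : ℂ) * Complex.I * (((m : ℝ) * t : ℝ) : ℂ)) ∂μ‖ ≤
        K * (m : ℝ) ^ (-(4 * η / (k : ℝ)))) :
    (∀ c : ℕ → ℂ, (∀ n, ‖c n‖ ≤ 1) →
      (∀ (N : ℕ) (V : ℝ), 1 ≤ N → 0 < V →
        μ {t : ℝ | ∃ (M : ℕ) (ξ : ℝ), M ≤ N ∧ V < ‖∑ n ∈ Icc 1 M, c n *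
          Complex.exp (2 * (Real.pi : ℂ) * Complex.I * ((t * (n : ℝ) ^ k + ξ * (n : ℝ) : ℝ) : ℂ))‖} ≤
          ENNReal.ofReal ((6 + 24 * k * K) * (2 + Real.log N) ^ 4 * (N : ℝ) ^ (4 - 4 * η) / V ^ 4)) ∧
      ∀ᵐ t ∂μ, ∀ ε : ℝ, 0 < ε → ∃ C : ℝ, ∀ N : ℕ, 1 ≤ N → ∀ ξ : ℝ,
        ‖∑ n ∈ Icc 1 N, c n *
          Complex.exp (2 * (Real.pi : ℂ) * Complex.I * ((t * (n : ℝ) ^ k + ξ * (n : ℝ) : ℝ) : ℂ))‖ ≤
          C * (N : ℝ) ^ (1 - η + ε)) ∧
    ∀ᵐ t ∂μ, ∀ ε : ℝ, 0 < ε → ∃ C : ℝ, ∀ N : ℕ, 2 ≤ N → ∀ (ξ : ℝ) (a q : ℕ),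
      1 ≤ a → a < q → q ≤ N → Nat.Coprime a q → |t - (a : ℝ) / (q : ℝ)| ≤ 1 / (q : ℝ) ^ 2 →
      ‖∑ n ∈ Icc 1 N,
          Complex.exp (2 * (Real.pi : ℂ) * Complex.I * ((t * (n : ℝ) ^ k + ξ * (n : ℝ) : ℝ) : ℂ))‖ ≤
        C * (N : ℝ) ^ (1 + ε) * (1 / (q : ℝ) + 1 / (N : ℝ) + (q : ℝ) / (N : ℝ) ^ k) ^ η := by
  have hk0 : (0 : ℝ) < k := by
    have : 0 < k := by omega
    exact_mod_cast this
  have hd : Dec μ K (4 * η / k) := hdec
  have hK : 0 ≤ K := by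
    have h1 := (norm_nonneg _).trans (hd 1 le_rfl)
    rw [Nat.cast_one, Real.one_rpow, mul_one] at h1
    exact h1
  have hs : 0 < 4 * η / k := by positivity
  have hs1 : 4 * η / k ≤ 1 / k := div_le_div_of_nonneg_right (by linarith) hk0.le
  have e1 : (k : ℝ) * (4 * η / k) = 4 * η := by field_simp
  have e2 : (1 : ℝ) - k * (4 * η / k) / 4 = 1 - η := by
    rw [e1]
    ring
  refine ⟨fun c hc => ⟨fun N V hN hV => ?_, ?_⟩, ?_⟩
  · have h1 := meas_large hk hK hs hs1 hd hc hN hV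
    rw [e1] at h1
    exact h1
  · have h1 := ae_all hk hK hs hs1 hd hc
    rw [e2] at h1
    exact h1
  · have h1 := ae_all (c := fun _ => 1) hk hK hs hs1 hd (fun _ => by rw [norm_one])
    rw [e2] at h1
    filter_upwards [h1] with t ht ε hε
    obtain ⟨C, hC⟩ := ht ε hε
    refine ⟨max C 0, fun N hN ξ a q _ haq _ _ _ => ?_⟩
    have hN1 : (1 : ℝ) ≤ N := by
      have : 1 ≤ N := by omega
      exact_mod_cast this
    have hN0 : (0 : ℝ) < N := by linarith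
    have hq0 : (0 : ℝ) ≤ 1 / (q : ℝ) := by positivity
    have h2 : ‖∑ n ∈ Icc 1 N,
        Complex.exp (2 * (Real.pi : ℂ) * Complex.I * ((t * (n : ℝ) ^ k + ξ * (n : ℝ) : ℝ) : ℂ))‖ ≤
        C * (N : ℝ) ^ (1 - η + ε) := by
      have h3 := hC N (by omega) ξ
      unfold sc at h3
      simp only [one_mul] at h3
      exact h3
    refine h2.trans ?_
    have h4 : (N : ℝ) ^ (1 - η + ε) = (N : ℝ) ^ (1 + ε) * (1 / (N : ℝ)) ^ η := by
      rw [one_div, Real.inv_rpow hN0.le, ← Real.rpow_neg hN0.le, ← Real.rpow_add hN0]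
      congr 1
      ring
    have h5 : (1 / (N : ℝ)) ^ η ≤ (1 / (q : ℝ) + 1 / (N : ℝ) + (q : ℝ) / (N : ℝ) ^ k) ^ η := by
      refine Real.rpow_le_rpow (by positivity) ?_ hη.le
      have : (0 : ℝ) ≤ (q : ℝ) / (N : ℝ) ^ k := by positivity
      linarith
    rw [h4, mul_assoc]
    refine mul_le_mul (le_max_left _ _) ?_ (by positivity) (le_max_right _ _)
    exact mul_le_mul_of_nonneg_left h5 (by positivity)

end Pool.Agent.Results.MP_3b0be2_nt.FractalLeadingCoefficients
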